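import Pool.Agent.H688R2.VSP.Red

set_option autoImplicit false

namespace Pool.Agent.H688R2.VSP

open Finset

section Inst

variable (n B : ℕ) (s : ℕ → ℕ) (b : ℕ → Bool)

/-- the way out -/
def outp : ℕ → List ℕ
  | 0 => []
  | m + 1 => outp m ++ (if b m then [2 * m + 2, 2 * m + 1] else [2 * m + 2])

/-- the way back -/
def retp : ℕ → List ℕ
  | 0 => []
  | m + 1 => (if b m then [] else [2 * m + 1]) ++ retp m

/-- the schedule -/
def sched : List ℕ := 0 :: (outp b n ++ (2 * n + 1) :: retp b n)

lemma out_ret_perm (m : ℕ) : (outp b m ++ retp b m).Perm (List.range' 1 (2 * m)) := by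
  rw [← Multiset.coe_eq_coe]
  induction m with
  | zero => rfl
  | succ m ih =>
    rw [show 2 * (m + 1) = 2 * m + 1 + 1 by ring, List.range'_concat, List.range'_concat]
    simp only [outp, retp]
    by_cases hb : b m = true
    · simp only [hb, if_true, List.nil_append]
      simp only [← Multiset.coe_add] at ih ⊢
      rw [← ih]
      have e1 : (([1 + 1 * (2 * m)] : List ℕ) : Multiset ℕ) = {2 * m + 1} := by
        rw [show 1 + 1 * (2 * m) = 2 * m + 1 by ring]
        rfl
      have e2 : (([1 + 1 * (2 * m + 1)] : List ℕ) : Multiset ℕ) = {2 * m + 2} := by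
        rw [show 1 + 1 * (2 * m + 1) = 2 * m + 2 by ring]
        rfl
      have e3 : (([2 * m + 2, 2 * m + 1] : List ℕ) : Multiset ℕ) = {2 * m + 2} + {2 * m + 1} := rfl
      rw [e1, e2, e3]
      abel
    · simp only [hb]
      simp only [Bool.false_eq_true, if_false, ← Multiset.coe_add] at ih ⊢
      rw [← ih]
      have e1 : (([1 + 1 * (2 * m)] : List ℕ) : Multiset ℕ) = {2 * m + 1} := by
        rw [show 1 + 1 * (2 * m) = 2 * m + 1 by ring]
        rfl
      have e2 : (([1 + 1 * (2 * m + 1)] : List ℕ) : Multiset ℕ) = {2 * m + 2} := by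
        rw [show 1 + 1 * (2 * m + 1) = 2 * m + 2 by ring]
        rfl
      have e3 : (([2 * m + 2] : List ℕ) : Multiset ℕ) = {2 * m + 2} := rfl
      have e4 : (([2 * m + 1] : List ℕ) : Multiset ℕ) = {2 * m + 1} := rfl
      rw [e1, e2, e3, e4]
      abel

lemma sched_perm : (sched n b).Perm (List.range (2 * n + 2)) := by
  have h1 := out_ret_perm b n
  have h2 : (outp b n ++ (2 * n + 1) :: retp b n).Perm (List.range' 1 (2 * n + 1)) := by
    rw [List.range'_concat, show 1 + 1 * (2 * n) = 2 * n + 1 by ring]
    have h3 : (outp b n ++ (2 * n + 1) :: retp b n).Perm ((2 * n + 1) :: (outp b n ++ retp b n)) :=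
      List.perm_middle
    refine h3.trans ?_
    refine (h1.cons (2 * n + 1)).trans ?_
    exact (List.perm_append_singleton _ _).symm
  have h4 : List.range (2 * n + 2) = 0 :: List.range' 1 (2 * n + 1) := by
    rw [List.range_eq_range', show 2 * n + 2 = 2 * n + 1 + 1 by ring, List.range'_succ]
  rw [h4]
  exact h2.cons 0

lemma out_state {m : ℕ} (hm : m ≤ n) :
    ∃ p, p ≤ 2 * m ∧ (outp b m).foldl (step (len s) (rel n B s) (hnd n B s)) (0, 1) =
      (p, 1 + m * MM n B s + 4 * (∑ i ∈ range m, if b i then s i else 0) + pos (len s) p) := by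
  induction m with
  | zero =>
    refine ⟨0, le_rfl, ?_⟩
    simp [outp, pos]
  | succ m ih =>
    obtain ⟨p, hp, hst⟩ := ih (by omega)
    have hpe := pos_even s m
    have hmono : pos (len s) p ≤ pos (len s) (2 * m + 1) := pos_mono _ (by omega)
    have hd1 : dd (len s) p (2 * m + 2) = pos (len s) (2 * m + 2) - pos (len s) p :=
      dd_of_le _ (by omega)
    have hd2 : dd (len s) (2 * m + 2) (2 * m + 1) = s m := by
      rw [dd_comm, dd_of_le _ (by omega), hpe]
      omega
    have hr1 : rel n B s (2 * m + 2) = 0 := by
      have := rel_even n B s (m + 1)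
      rwa [show 2 * (m + 1) = 2 * m + 2 by ring] at this
    have hr2 := rel_odd n B s (show m < n by omega)
    have hh1 := hnd_even n B s m
    have hh2 := hnd_odd n B s (show m < n by omega)
    have e1 : (m + 1) * MM n B s = m * MM n B s + MM n B s := by ring
    rw [e1] at hr2
    by_cases hb : b m = true
    · refine ⟨2 * m + 1, by omega, ?_⟩
      simp only [outp, hb, if_true, List.foldl_append, hst, List.foldl_cons, List.foldl_nil, step,
        hd1, hd2, hr1, hr2, hh1, hh2, sum_range_succ, e1]
      congr 1
      generalize m * MM n B s = X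
      generalize (∑ i ∈ range m, if b i = true then s i else 0) = Y
      rw [max_eq_left (Nat.zero_le _), max_eq_left (by omega)]
      omega
    · refine ⟨2 * m + 2, by omega, ?_⟩
      simp only [outp, hb, List.foldl_append, hst, List.foldl_cons, List.foldl_nil, step,
        hd1, hr1, hh1, sum_range_succ, e1]
      simp only [Bool.false_eq_true, if_false, List.foldl_cons, List.foldl_nil, step, hd1, hr1, hh1,
        add_zero]
      congr 1
      generalize m * MM n B s = X
      generalize (∑ i ∈ range m, if b i = true then s i else 0) = Y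
      rw [max_eq_left (Nat.zero_le _)]
      omega

lemma ret_state {m : ℕ} (hm : m ≤ n) (p t : ℕ) (hp : 2 * m ≤ p) (ht : 1 + n * MM n B s ≤ t) :
    comp (len s) (rel n B s) (hnd n B s) 0 (p, t) (retp b m) =
      t + pos (len s) p + 2 * (∑ i ∈ range m, if b i then 0 else s i) := by
  induction m generalizing p t with
  | zero =>
    simp only [retp, comp, List.foldl_nil, range_zero, sum_empty, mul_zero, add_zero]
    rw [dd_comm, dd_of_le _ (Nat.zero_le _), pos_zero]
    rfl
  | succ m ih =>
    by_cases hb : b m = true
    · simp only [retp, hb, if_true, List.nil_append, sum_range_succ, add_zero]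
      exact ih (by omega) p t (by omega) ht
    · have hd : dd (len s) p (2 * m + 1) = pos (len s) p - pos (len s) (2 * m + 1) := by
        rw [dd_comm, dd_of_le _ (by omega)]
      have hmono : pos (len s) (2 * m + 1) ≤ pos (len s) p := pos_mono _ (by omega)
      have hr := rel_odd n B s (show m < n by omega)
      have hh := hnd_odd n B s (show m < n by omega)
      have hle : (m + 1) * MM n B s ≤ n * MM n B s := Nat.mul_le_mul_right _ hm
      simp only [retp, hb, Bool.false_eq_true, if_false, List.cons_append, List.nil_append,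
        comp_cons, sum_range_succ]
      have hst : step (len s) (rel n B s) (hnd n B s) (p, t) (2 * m + 1) =
          (2 * m + 1, t + (pos (len s) p - pos (len s) (2 * m + 1)) + 2 * s m) := by
        simp only [step, hd, hr, hh]
        congr 2
        exact max_eq_left (by omega)
      rw [hst, ih (by omega) _ _ (by omega) (by omega)]
      generalize (∑ i ∈ range m, if b i = true then 0 else s i) = Y
      omega

/-- A solution of the subset sum instance gives a schedule meeting the bound. -/
theorem complete (hb : ∑ i ∈ range n, (if b i then s i else 0) = B) :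
    comp (len s) (rel n B s) (hnd n B s) 0 (0, 0) (sched n b) ≤ KK n B s := by
  have hsplit : ∑ i ∈ range n, (if b i then s i else 0) +
      ∑ i ∈ range n, (if b i then 0 else s i) = SS n s := by
    unfold SS
    rw [← sum_add_distrib]
    apply sum_congr rfl
    intro i _
    by_cases h : b i = true <;> simp [h]
  have hM : MM n B s = 2 * SS n s + 2 * B + LL n s + 1 := rfl
  have hKK : KK n B s = 2 * LL n s + 2 + n * MM n B s + 2 * SS n s + 2 * B := rfl
  have hRR : RR n B s = LL n s + 1 + n * MM n B s + 4 * B := rfl
  unfold sched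
  rw [comp_cons]
  have h0 : step (len s) (rel n B s) (hnd n B s) (0, 0) 0 = (0, 1) := by
    have := rel_even n B s 0
    simp only [mul_zero] at this
    simp [step, dd, this, hnd_zero]
  rw [h0, comp_append]
  obtain ⟨p, hp, hst⟩ := out_state n B s b le_rfl
  rw [hst, comp_cons, hb]
  have hmono : pos (len s) p ≤ pos (len s) (2 * n + 1) := pos_mono _ (by omega)
  have hd : dd (len s) p (2 * n + 1) = pos (len s) (2 * n + 1) - pos (len s) p :=
    dd_of_le _ (by omega)
  have h1 : step (len s) (rel n B s) (hnd n B s)
      (p, 1 + n * MM n B s + 4 * B + pos (len s) p) (2 * n + 1) = (2 * n + 1, RR n B s + 1) := by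
    simp only [step, hd, rel_last, hnd_last]
    congr 2
    rw [pos_last] at hmono ⊢
    rw [hRR]
    generalize n * MM n B s = X
    rw [max_eq_right]
    omega
  rw [h1, ret_state n B s b le_rfl _ _ (by omega) (by rw [hRR]; omega), pos_last]
  omega

/-- The reduction is correct (abstract form). -/
theorem red_iff : (∃ π : List ℕ, π.Perm (List.range (2 * n + 2)) ∧
      comp (len s) (rel n B s) (hnd n B s) 0 (0, 0) π ≤ KK n B s) ↔
    ∃ b : ℕ → Bool, ∑ i ∈ range n, (if b i then s i else 0) = B := by
  constructor
  · rintro ⟨π, hπ, hK⟩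
    exact sound n B s hπ hK
  · rintro ⟨b, hb⟩
    exact ⟨sched n b, sched_perm n b, complete n B s b hb⟩

end Inst

end Pool.Agent.H688R2.VSP
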