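import Mathlib

set_option autoImplicit false

namespace Pool.Agent.H688R2.VSP

/-! ### number of changes in a list of booleans -/

/-- number of changes in `a :: l` -/
def ch : Bool → List Bool → ℕ
  | _, [] => 0
  | a, b :: l => (if a = b then 0 else 1) + ch b l

lemma ch_start (a b : Bool) (l : List Bool) : ch a l ≤ (if a = b then 0 else 1) + ch b l := by
  cases l with
  | nil => simp [ch]
  | cons c l =>
    simp only [ch]
    cases a <;> cases b <;> cases c <;> simp <;> omega

lemma ch_sublist {l' l : List Bool} (h : l'.Sublist l) (a : Bool) : ch a l' ≤ ch a l := by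
  induction h generalizing a with
  | slnil => exact le_refl _
  | cons b h ih =>
    simp only [ch]
    exact (ch_start a b _).trans (Nat.add_le_add_left (ih b) _)
  | cons_cons b h ih =>
    simp only [ch]
    exact Nat.add_le_add_left (ih b) _

section Metric

variable (len : ℕ → ℕ)

/-- coordinates -/
def pos (p : ℕ) : ℕ := ∑ e ∈ Finset.range p, len e

lemma pos_succ (p : ℕ) : pos len (p + 1) = pos len p + len p := by
  unfold pos
  rw [Finset.sum_range_succ]

lemma pos_mono {p q : ℕ} (h : p ≤ q) : pos len p ≤ pos len q := by
  unfold pos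
  exact Finset.sum_le_sum_of_subset (Finset.range_mono h)

lemma pos_zero : pos len 0 = 0 := rfl

/-- distances -/
def dd (p q : ℕ) : ℕ := (pos len q - pos len p) + (pos len p - pos len q)

lemma dd_of_le {p q : ℕ} (h : p ≤ q) : dd len p q = pos len q - pos len p := by
  have := pos_mono len h
  unfold dd
  omega

lemma dd_comm (p q : ℕ) : dd len p q = dd len q p := by
  unfold dd
  omega

lemma dd_tri (p q r : ℕ) : dd len p r ≤ dd len p q + dd len q r := by
  unfold dd
  omega

/-- length of the walk `p, l, s` -/
def walk (s : ℕ) : ℕ → List ℕ → ℕ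
  | p, [] => dd len p s
  | p, q :: l => dd len p q + walk s q l

lemma walk_ge (s : ℕ) (p : ℕ) (l : List ℕ) : dd len p s ≤ walk len s p l := by
  induction l generalizing p with
  | nil => exact le_refl _
  | cons q l ih =>
    simp only [walk]
    exact (dd_tri len p q s).trans (Nat.add_le_add_left (ih q) _)

lemma walk_mem (s : ℕ) (p f : ℕ) (l : List ℕ) (hf : f ∈ l) :
    dd len p f + dd len f s ≤ walk len s p l := by
  induction l generalizing p with
  | nil => simp at hf
  | cons q l ih =>
    simp only [walk]
    rcases List.mem_cons.1 hf with rfl | hf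
    · exact Nat.add_le_add_left (walk_ge len s f l) _
    · have := ih q hf
      have h2 := dd_tri len p q f
      omega

/-- the edge `e` separates `p` and `q` -/
def side (e p : ℕ) : Bool := decide (p ≤ e)

lemma dd_eq_sum (N : ℕ) {p q : ℕ} (hp : p ≤ N) (hq : q ≤ N) :
    dd len p q = ∑ e ∈ Finset.range N, len e * (if side e p = side e q then 0 else 1) := by
  wlog h : p ≤ q generalizing p q
  · rw [dd_comm, this hq hp (by omega)]
    apply Finset.sum_congr rfl
    intro e _
    congr 1
    simp only [eq_comm]
  rw [dd_of_le len h]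
  have h1 : ∑ e ∈ Finset.range N, len e * (if side e p = side e q then 0 else 1) =
      ∑ e ∈ (Finset.range N).filter (fun e => p ≤ e ∧ e < q), len e := by
    rw [Finset.sum_filter]
    apply Finset.sum_congr rfl
    intro e _
    unfold side
    by_cases h1 : p ≤ e <;> by_cases h2 : q ≤ e
    · simp [h1, h2]
    · simp [h1, h2]
    · omega
    · simp [h1, h2]
  rw [h1]
  have h2 : (Finset.range N).filter (fun e => p ≤ e ∧ e < q) = Finset.Ico p q := by
    ext e
    simp only [Finset.mem_filter, Finset.mem_range, Finset.mem_Ico]
    omega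
  rw [h2]
  unfold pos
  have := Finset.sum_range_add_sum_Ico len h
  omega

lemma walk_eq_sum (N s : ℕ) (hs : s ≤ N) (p : ℕ) (hp : p ≤ N) (l : List ℕ)
    (hl : ∀ q ∈ l, q ≤ N) :
    walk len s p l = ∑ e ∈ Finset.range N, len e * ch (side e p) ((l ++ [s]).map (side e)) := by
  induction l generalizing p with
  | nil =>
    simp only [walk, List.nil_append, List.map_cons, List.map_nil, ch]
    rw [dd_eq_sum len N hp hs]
    simp
  | cons q l ih =>
    simp only [walk, List.cons_append, List.map_cons, ch]
    rw [dd_eq_sum len N hp (hl q (by simp)),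
      ih q (hl q (by simp)) (fun r hr => hl r (List.mem_cons_of_mem _ hr)),
      ← Finset.sum_add_distrib]
    apply Finset.sum_congr rfl
    intro e _
    ring

section Time

variable (r h : ℕ → ℕ)

/-- one step of the vehicle: from (vertex, time) to (vertex, time) -/
def step (x : ℕ × ℕ) (j : ℕ) : ℕ × ℕ := (j, max (x.2 + dd len x.1 j) (r j) + h j)

/-- time of return -/
def comp (s : ℕ) (x : ℕ × ℕ) (l : List ℕ) : ℕ :=
  (l.foldl (step len r h) x).2 + dd len (l.foldl (step len r h) x).1 s

lemma comp_cons (s : ℕ) (x : ℕ × ℕ) (j : ℕ) (l : List ℕ) :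
    comp len r h s x (j :: l) = comp len r h s (step len r h x j) l := rfl

lemma comp_append (s : ℕ) (x : ℕ × ℕ) (l l' : List ℕ) :
    comp len r h s x (l ++ l') = comp len r h s (l.foldl (step len r h) x) l' := by
  unfold comp
  rw [List.foldl_append]

/-- total handling time -/
def hand (l : List ℕ) : ℕ := (l.map h).sum

lemma hand_append (l l' : List ℕ) : hand h (l ++ l') = hand h l + hand h l' := by
  unfold hand
  rw [List.map_append, List.sum_append]

lemma hand_cons (j : ℕ) (l : List ℕ) : hand h (j :: l) = h j + hand h l := by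
  unfold hand
  rw [List.map_cons, List.sum_cons]

lemma hand_perm {l l' : List ℕ} (hp : l.Perm l') : hand h l = hand h l' :=
  (hp.map h).sum_eq

lemma comp_ge (s : ℕ) (x : ℕ × ℕ) (l : List ℕ) :
    x.2 + hand h l + walk len s x.1 l ≤ comp len r h s x l := by
  induction l generalizing x with
  | nil =>
    simp [comp, hand, walk]
  | cons j l ih =>
    rw [comp_cons, hand_cons]
    refine le_trans ?_ (ih _)
    simp only [step, walk]
    have := le_max_left (x.2 + dd len x.1 j) (r j)
    omega

lemma comp_ge_release (s : ℕ) (x : ℕ × ℕ) (a b : List ℕ) (j : ℕ) :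
    r j + h j + hand h b + walk len s j b ≤ comp len r h s x (a ++ j :: b) := by
  rw [comp_append, comp_cons]
  refine le_trans ?_ (comp_ge len r h s _ b)
  simp only [step]
  have := le_max_right ((List.foldl (step len r h) x a).2 +
    dd len (List.foldl (step len r h) x a).1 j) (r j)
  omega

end Time

end Metric

end Pool.Agent.H688R2.VSP
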