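import Pool.Agent.NPC.Defs

set_option autoImplicit false

/-!
Single-vehicle scheduling on a path with release and handling times: definitions.
-/

namespace Pool.Agent.H688R2.VSP

/-- The vertices of the path are `0, 1, …, N` from left to right; `E` lists its edges, the `e`-th
entry `(a, b)` means that going from vertex `e` to vertex `e + 1` takes time `a` and going back
takes time `b`.  `travel E p q` is the travel time from vertex `p` to vertex `q`. -/
def travel (E : List (ℕ × ℕ)) (p q : ℕ) : ℕ :=
  if p ≤ q then (((E.take q).drop p).map Prod.fst).sum else (((E.take p).drop q).map Prod.snd).sum

/-- The vehicle is at vertex `p` at time `t`; it then processes the jobs of the vertices in the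
list, in this order, and returns to `s`.  The value is the time of its return.  `J` lists the jobs:
entry number `v` is the pair (release time, handling time) of the job of vertex `v`. -/
def completion (E J : List (ℕ × ℕ)) (s : ℕ) : ℕ → ℕ → List ℕ → ℕ
  | p, t, [] => t + travel E p s
  | p, t, v :: π => completion E J s v
      (max (t + travel E p v) (J.getD v (0, 0)).1 + (J.getD v (0, 0)).2) π

/-- The decision problem.  An instance `(s, E, J, K)` consists of the start vertex `s`, the list
`E` of the edges of the path, the list `J` of the jobs (release time, handling time) of its vertices
and the bound `K`.  The instance must be well formed (one more vertex than edges, `s` is a vertex,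
all handling times positive), and the question is whether the jobs can be processed in some order
`π` such that the vehicle is back at `s` at time `K` at the latest. -/
def PathVSP (x : ℕ × List (ℕ × ℕ) × List (ℕ × ℕ) × ℕ) : Prop :=
  x.2.1.length + 1 = x.2.2.1.length ∧ x.1 < x.2.2.1.length ∧ (∀ j ∈ x.2.2.1, 0 < j.2) ∧
    ∃ π : List ℕ, π.Perm (List.range x.2.2.1.length) ∧
      completion x.2.1 x.2.2.1 x.1 x.1 0 π ≤ x.2.2.2

end Pool.Agent.H688R2.VSP
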