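import Pool.Agent.H688R2.VSP.Build
import Pool.Agent.H688R2.VSP.Defs

set_option autoImplicit false

namespace Pool.Agent.H688R2.VSP

open Finset

/-- edges of the instance -/
def edges (l : List ℕ) : List (ℕ × ℕ) := (1, 1) :: l.flatMap (fun s => [(s, s), (1, 1)])

/-- jobs in the middle -/
def midJobs (M k : ℕ) (l : List ℕ) : List (ℕ × ℕ) :=
  (l.zipIdx k).flatMap (fun p => [((p.2 + 1) * M + 1, 2 * p.1), (0, M)])

/-- the constants -/
def cL (l : List ℕ) : ℕ := l.sum + l.length + 1
def cM (l : List ℕ) (B : ℕ) : ℕ := 2 * l.sum + 2 * B + cL l + 1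

/-- jobs of the instance -/
def jobs (l : List ℕ) (B : ℕ) : List (ℕ × ℕ) :=
  (0, 1) :: (midJobs (cM l B) 0 l ++ [(cL l + 1 + l.length * cM l B + 4 * B, 1)])

/-- the instance -/
def inst (x : List ℕ × ℕ) : ℕ × List (ℕ × ℕ) × List (ℕ × ℕ) × ℕ :=
  (0, edges x.1, jobs x.1 x.2,
    2 * cL x.1 + 2 + x.1.length * cM x.1 x.2 + 2 * x.1.sum + 2 * x.2)

/-- the numbers as a function -/
def fn (l : List ℕ) (i : ℕ) : ℕ := l.getD i 0

lemma edges_cons (a : ℕ) (l : List ℕ) : edges (a :: l) = (1, 1) :: (a, a) :: edges l := rfl

lemma edges_length (l : List ℕ) : (edges l).length = 2 * l.length + 1 := by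
  induction l with
  | nil => rfl
  | cons a l ih =>
    rw [edges_cons]
    simp only [List.length_cons, ih]
    ring

lemma edges_get (l : List ℕ) (p : ℕ) (hp : p < 2 * l.length + 1) :
    (edges l)[p]? = some (len (fn l) p, len (fn l) p) := by
  induction l generalizing p with
  | nil =>
    have : p = 0 := by simpa using hp
    subst this
    rfl
  | cons a l ih =>
    rw [edges_cons]
    match p with
    | 0 => rfl
    | 1 => rfl
    | p + 2 =>
      rw [List.getElem?_cons_succ, List.getElem?_cons_succ, ih p (by simp at hp; omega)]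
      have : len (fn (a :: l)) (p + 2) = len (fn l) p := by
        unfold len
        by_cases h : p % 2 = 1
        · rw [if_pos (by omega), if_pos h, show (p + 2) / 2 = p / 2 + 1 by omega]
          simp [fn]
        · rw [if_neg (by omega), if_neg h]
      rw [this]

lemma midJobs_cons (M k a : ℕ) (l : List ℕ) :
    midJobs M k (a :: l) = ((k + 1) * M + 1, 2 * a) :: (0, M) :: midJobs M (k + 1) l := rfl

lemma midJobs_length (M k : ℕ) (l : List ℕ) : (midJobs M k l).length = 2 * l.length := by
  induction l generalizing k with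
  | nil => rfl
  | cons a l ih =>
    rw [midJobs_cons]
    simp only [List.length_cons, ih]
    ring

lemma midJobs_get_even (M k : ℕ) (l : List ℕ) (i : ℕ) (hi : i < l.length) :
    (midJobs M k l)[2 * i]? = some ((k + i + 1) * M + 1, 2 * fn l i) := by
  induction l generalizing k i with
  | nil => simp at hi
  | cons a l ih =>
    rw [midJobs_cons]
    match i with
    | 0 => rfl
    | i + 1 =>
      rw [show 2 * (i + 1) = 2 * i + 1 + 1 by ring, List.getElem?_cons_succ,
        List.getElem?_cons_succ, ih (k + 1) i (by simpa using hi),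
        show k + 1 + i + 1 = k + (i + 1) + 1 by ring]
      simp [fn]

lemma midJobs_get_odd (M k : ℕ) (l : List ℕ) (i : ℕ) (hi : i < l.length) :
    (midJobs M k l)[2 * i + 1]? = some (0, M) := by
  induction l generalizing k i with
  | nil => simp at hi
  | cons a l ih =>
    rw [midJobs_cons]
    match i with
    | 0 => rfl
    | i + 1 =>
      rw [show 2 * (i + 1) + 1 = 2 * i + 1 + 1 + 1 by ring, List.getElem?_cons_succ,
        List.getElem?_cons_succ, ih (k + 1) i (by simpa using hi)]

lemma sum_fn (l : List ℕ) : ∑ i ∈ range l.length, fn l i = l.sum := by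
  induction l with
  | nil => rfl
  | cons a l ih =>
    rw [List.length_cons, sum_range_succ']
    simp only [fn, List.getD_cons_succ, List.getD_cons_zero, List.sum_cons] at ih ⊢
    rw [ih]
    ring

lemma SS_eq (l : List ℕ) : SS l.length (fn l) = l.sum := sum_fn l

lemma LL_eq (l : List ℕ) : LL l.length (fn l) = cL l := by
  unfold LL cL
  rw [SS_eq]

lemma MM_eq (l : List ℕ) (B : ℕ) : MM l.length B (fn l) = cM l B := by
  unfold MM cM
  rw [SS_eq, LL_eq]

lemma jobs_length (l : List ℕ) (B : ℕ) : (jobs l B).length = 2 * l.length + 2 := by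
  unfold jobs
  simp [midJobs_length]

lemma jobs_get (l : List ℕ) (B : ℕ) (v : ℕ) (hv : v < 2 * l.length + 2) :
    (jobs l B)[v]? = some (rel l.length B (fn l) v, hnd l.length B (fn l) v) := by
  unfold jobs
  rcases Nat.eq_zero_or_pos v with rfl | hv0
  · simp [rel, hnd]
  · obtain ⟨w, rfl⟩ := Nat.exists_eq_add_of_lt hv0
    simp only [zero_add, List.getElem?_cons_succ]
    by_cases hw : w < 2 * l.length
    · rw [List.getElem?_append_left (by rw [midJobs_length]; exact hw)]
      rcases Nat.even_or_odd' w with ⟨i, rfl | rfl⟩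
      · rw [midJobs_get_even _ _ _ _ (by omega), rel_odd _ _ _ (by omega),
          hnd_odd _ _ _ (by omega), MM_eq]
        simp
      · rw [midJobs_get_odd _ _ _ _ (by omega)]
        have h1 := rel_even l.length B (fn l) (i + 1)
        have h2 := hnd_even l.length B (fn l) i
        rw [show 2 * i + 1 + 1 = 2 * (i + 1) by ring, h1, show 2 * (i + 1) = 2 * i + 2 by ring, h2,
          MM_eq]
    · have hw' : w = 2 * l.length := by omega
      subst hw'
      rw [List.getElem?_append_right (by rw [midJobs_length]), midJobs_length, rel_last, hnd_last]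
      unfold RR
      rw [LL_eq, MM_eq]
      simp

lemma take_sum (l : List ℕ) (f : ℕ × ℕ → ℕ) (hf : ∀ x : ℕ, f (x, x) = x) (p : ℕ)
    (hp : p ≤ 2 * l.length + 1) : (((edges l).take p).map f).sum = pos (len (fn l)) p := by
  induction p with
  | zero => rfl
  | succ p ih =>
    rw [List.take_add_one, edges_get l p (by omega), pos_succ, List.map_append, List.sum_append,
      ih (by omega)]
    simp [hf]

lemma seg_sum (E : List (ℕ × ℕ)) (f : ℕ × ℕ → ℕ) {p q : ℕ} (h : p ≤ q) :
    (((E.take q).drop p).map f).sum = ((E.take q).map f).sum - ((E.take p).map f).sum := by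
  have h1 : E.take q = E.take p ++ (E.take q).drop p := by
    have := List.take_append_drop p (E.take q)
    rw [List.take_take, min_eq_left h] at this
    exact this.symm
  have h2 : ((E.take q).map f).sum = ((E.take p).map f).sum + (((E.take q).drop p).map f).sum := by
    conv_lhs => rw [h1]
    rw [List.map_append, List.sum_append]
  omega

lemma travel_eq (l : List ℕ) {p q : ℕ} (hp : p ≤ 2 * l.length + 1) (hq : q ≤ 2 * l.length + 1) :
    travel (edges l) p q = dd (len (fn l)) p q := by
  unfold travel
  split_ifs with h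
  · rw [seg_sum _ _ h, take_sum l _ (fun _ => rfl) _ hq, take_sum l _ (fun _ => rfl) _ hp,
      dd_of_le _ h]
  · rw [seg_sum _ _ (by omega : q ≤ p), take_sum l _ (fun _ => rfl) _ hq,
      take_sum l _ (fun _ => rfl) _ hp, dd_comm, dd_of_le _ (by omega : q ≤ p)]

lemma completion_eq (l : List ℕ) (B : ℕ) (π : List ℕ) (p t : ℕ) (hp : p ≤ 2 * l.length + 1)
    (hπ : ∀ q ∈ π, q ≤ 2 * l.length + 1) :
    completion (edges l) (jobs l B) 0 p t π =
      comp (len (fn l)) (rel l.length B (fn l)) (hnd l.length B (fn l)) 0 (p, t) π := by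
  induction π generalizing p t with
  | nil =>
    simp only [completion, comp, List.foldl_nil]
    rw [travel_eq l hp (by omega)]
  | cons v π ih =>
    have hv := hπ v (by simp)
    have hj : (jobs l B).getD v (0, 0) = (rel l.length B (fn l) v, hnd l.length B (fn l) v) := by
      rw [List.getD_eq_getElem?_getD, jobs_get l B v (by omega)]
      rfl
    simp only [completion, comp_cons]
    rw [ih _ _ hv (fun q hq => hπ q (List.mem_cons_of_mem _ hq)), hj, travel_eq l hp hv]
    rfl

lemma sublist_iff (l : List ℕ) (B : ℕ) : (∃ s : List ℕ, s.Sublist l ∧ s.sum = B) ↔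
    ∃ b : ℕ → Bool, ∑ i ∈ range l.length, (if b i then fn l i else 0) = B := by
  induction l generalizing B with
  | nil => simp
  | cons a l ih =>
    constructor
    · rintro ⟨s, hs, hsum⟩
      rcases List.sublist_cons_iff.1 hs with h | ⟨s', rfl, h⟩
      · obtain ⟨b, hb⟩ := (ih B).1 ⟨s, h, hsum⟩
        refine ⟨fun i => match i with | 0 => false | i + 1 => b i, ?_⟩
        rw [List.length_cons, sum_range_succ']
        simpa [fn] using hb
      · obtain ⟨b, hb⟩ := (ih s'.sum).1 ⟨s', h, rfl⟩
        refine ⟨fun i => match i with | 0 => true | i + 1 => b i, ?_⟩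
        rw [List.length_cons, sum_range_succ']
        simp only [fn, List.getD_cons_succ, List.getD_cons_zero, if_true] at hb ⊢
        rw [hb, ← hsum]
        simp [add_comm]
    · rintro ⟨b, hb⟩
      rw [List.length_cons, sum_range_succ'] at hb
      simp only [fn, List.getD_cons_succ, List.getD_cons_zero] at hb
      obtain ⟨s, hs, hsum⟩ := (ih (∑ i ∈ range l.length, if b (i + 1) = true then fn l i else 0)).2
        ⟨fun i => b (i + 1), rfl⟩
      by_cases h0 : b 0 = true
      · refine ⟨a :: s, hs.cons_cons a, ?_⟩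
        rw [List.sum_cons, hsum, ← hb, if_pos h0]
        simp only [fn]
        ring
      · refine ⟨s, hs.cons a, ?_⟩
        rw [hsum, ← hb, if_neg h0]
        simp only [fn]
        ring

/-- Correctness of the reduction. -/
theorem inst_iff (x : List ℕ × ℕ) (hx : ∀ a ∈ x.1, 0 < a) :
    (∃ s : List ℕ, s.Sublist x.1 ∧ s.sum = x.2) ↔ PathVSP (inst x) := by
  obtain ⟨l, B⟩ := x
  have hM : 0 < cM l B := by unfold cM; omega
  have hfn : ∀ i < l.length, 0 < fn l i := by
    intro i hi
    apply hx
    unfold fn
    rw [List.getD_eq_getElem _ _ hi]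
    exact List.getElem_mem hi
  rw [sublist_iff, ← red_iff]
  unfold PathVSP inst
  simp only
  rw [jobs_length, edges_length]
  have hK : KK l.length B (fn l) = 2 * cL l + 2 + l.length * cM l B + 2 * l.sum + 2 * B := by
    unfold KK
    rw [LL_eq, MM_eq, SS_eq]
  constructor
  · rintro ⟨π, hπ, hc⟩
    refine ⟨rfl, by omega, ?_, π, hπ, ?_⟩
    · intro j hj
      obtain ⟨v, hv, rfl⟩ := List.getElem_of_mem hj
      rw [jobs_length] at hv
      have h1 := jobs_get l B v hv
      rw [List.getElem?_eq_getElem (by rw [jobs_length]; exact hv)] at h1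
      rw [Option.some.inj h1]
      simp only
      unfold hnd
      split_ifs with h1 h2 h3
      · norm_num
      · norm_num
      · have := hfn (v / 2) (by omega)
        omega
      · rw [MM_eq]
        exact hM
    · rw [completion_eq l B π 0 0 (by omega), ← hK]
      · exact hc
      · intro q hq
        rw [hπ.mem_iff, List.mem_range] at hq
        omega
  · rintro ⟨_, _, _, π, hπ, hc⟩
    refine ⟨π, hπ, ?_⟩
    rw [completion_eq l B π 0 0 (by omega), ← hK] at hc
    · exact hc
    · intro q hq
      rw [hπ.mem_iff, List.mem_range] at hq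
      omega

end Pool.Agent.H688R2.VSP
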