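import Pool.Agent.H688R2.VSP.Inst
import Pool.Agent.NPC.Hard

set_option autoImplicit false

namespace Pool.Agent.H688R2.VSP

open Pool.Agent.NPC

lemma poly_cL : NPC.Poly (fun x : List ℕ × ℕ => cL x.1) := by
  unfold cL
  exact ((NPC.Poly.sum (NPC.Poly.fst NPC.Poly.id)).add (NPC.Poly.length (NPC.Poly.fst NPC.Poly.id))).succ

lemma poly_cM : NPC.Poly (fun x : List ℕ × ℕ => cM x.1 x.2) := by
  unfold cM
  exact ((((NPC.Poly.const 2).mul (NPC.Poly.sum (NPC.Poly.fst NPC.Poly.id))).add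
    ((NPC.Poly.const 2).mul (NPC.Poly.snd NPC.Poly.id))).add poly_cL).succ

lemma poly_edges : NPC.Poly (fun x : List ℕ × ℕ => edges x.1) := by
  unfold edges
  refine NPC.Poly.cons (NPC.Poly.const _) (NPC.Poly.flatMap (F := fun _ s => [(s, s), (1, 1)])
    (NPC.Poly.fst NPC.Poly.id) ?_)
  exact NPC.Poly.cons (NPC.Poly.pair (NPC.Poly.snd NPC.Poly.id) (NPC.Poly.snd NPC.Poly.id)) (NPC.Poly.const _)

lemma poly_jobs : NPC.Poly (fun x : List ℕ × ℕ => jobs x.1 x.2) := by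
  unfold jobs midJobs
  refine NPC.Poly.cons (NPC.Poly.const _) (NPC.Poly.append ?_ ?_)
  · refine NPC.Poly.flatMap (F := fun (x : List ℕ × ℕ) (p : ℕ × ℕ) =>
      [((p.2 + 1) * cM x.1 x.2 + 1, 2 * p.1), (0, cM x.1 x.2)])
      (NPC.Poly.zipIdx (NPC.Poly.fst NPC.Poly.id)) ?_
    have h1 : NPC.Poly (fun y : (List ℕ × ℕ) × (ℕ × ℕ) => cM y.1.1 y.1.2) :=
      poly_cM.comp (NPC.Poly.fst NPC.Poly.id)
    have h2 : NPC.Poly (fun y : (List ℕ × ℕ) × (ℕ × ℕ) => y.2.2) := NPC.Poly.snd (NPC.Poly.snd NPC.Poly.id)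
    have h3 : NPC.Poly (fun y : (List ℕ × ℕ) × (ℕ × ℕ) => y.2.1) := NPC.Poly.fst (NPC.Poly.snd NPC.Poly.id)
    exact NPC.Poly.cons (NPC.Poly.pair ((h2.succ.mul h1).succ) ((NPC.Poly.const 2).mul h3))
      (NPC.Poly.cons (NPC.Poly.pair (NPC.Poly.const 0) h1) (NPC.Poly.const []))
  · refine NPC.Poly.cons (NPC.Poly.pair ?_ (NPC.Poly.const 1)) (NPC.Poly.const [])
    exact ((poly_cL.add (NPC.Poly.const 1)).add ((NPC.Poly.length (NPC.Poly.fst NPC.Poly.id)).mul poly_cM)).add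
      ((NPC.Poly.const 4).mul (NPC.Poly.snd NPC.Poly.id))

lemma poly_inst : NPC.Poly inst := by
  unfold inst
  refine NPC.Poly.pair (NPC.Poly.const 0) (NPC.Poly.pair poly_edges (NPC.Poly.pair poly_jobs ?_))
  exact (((((NPC.Poly.const 2).mul poly_cL).add (NPC.Poly.const 2)).add
    ((NPC.Poly.length (NPC.Poly.fst NPC.Poly.id)).mul poly_cM)).add
    ((NPC.Poly.const 2).mul (NPC.Poly.sum (NPC.Poly.fst NPC.Poly.id)))).add ((NPC.Poly.const 2).mul (NPC.Poly.snd NPC.Poly.id))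

end Pool.Agent.H688R2.VSP
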