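import Pool.Agent.H688R2.VSP.Core

set_option autoImplicit false

namespace Pool.Agent.H688R2.VSP

open Finset

section Inst

variable (n B : ℕ) (s : ℕ → ℕ)

/-- lengths of the edges -/
def len (e : ℕ) : ℕ := if e % 2 = 1 then s (e / 2) else 1

/-- sum of the numbers -/
def SS : ℕ := ∑ i ∈ range n, s i

/-- length of the path -/
def LL : ℕ := SS n s + n + 1

/-- the big handling time -/
def MM : ℕ := 2 * SS n s + 2 * B + LL n s + 1

/-- release time of the last job -/
def RR : ℕ := LL n s + 1 + n * MM n B s + 4 * B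

/-- release times -/
def rel (j : ℕ) : ℕ :=
  if j = 2 * n + 1 then RR n B s else if j % 2 = 1 then (j / 2 + 1) * MM n B s + 1 else 0

/-- handling times -/
def hnd (j : ℕ) : ℕ :=
  if j = 2 * n + 1 then 1 else if j = 0 then 1 else if j % 2 = 1 then 2 * s (j / 2) else MM n B s

/-- the bound -/
def KK : ℕ := 2 * LL n s + 2 + n * MM n B s + 2 * SS n s + 2 * B

lemma len_odd (i : ℕ) : len s (2 * i + 1) = s i := by
  unfold len
  rw [if_pos (by omega)]
  congr 1
  omega

lemma len_even (i : ℕ) : len s (2 * i) = 1 := by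
  unfold len
  rw [if_neg (by omega)]

lemma pos_odd (m : ℕ) : pos (len s) (2 * m + 1) = (∑ i ∈ range m, s i) + m + 1 := by
  induction m with
  | zero => simp [pos, len]
  | succ m ih =>
    rw [show 2 * (m + 1) + 1 = 2 * m + 1 + 1 + 1 by ring, pos_succ, pos_succ, ih, sum_range_succ,
      len_odd, show 2 * m + 1 + 1 = 2 * (m + 1) by ring, len_even]
    ring

lemma pos_even (m : ℕ) : pos (len s) (2 * m + 2) = pos (len s) (2 * m + 1) + s m := by
  rw [show 2 * m + 2 = 2 * m + 1 + 1 by ring, pos_succ, len_odd]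

lemma pos_last : pos (len s) (2 * n + 1) = LL n s := by
  rw [pos_odd]
  rfl

lemma rel_last : rel n B s (2 * n + 1) = RR n B s := by
  unfold rel
  rw [if_pos rfl]

lemma rel_odd {i : ℕ} (hi : i < n) : rel n B s (2 * i + 1) = (i + 1) * MM n B s + 1 := by
  unfold rel
  rw [if_neg (by omega), if_pos (by omega)]
  congr 3
  omega

lemma rel_even (i : ℕ) : rel n B s (2 * i) = 0 := by
  unfold rel
  rw [if_neg (by omega), if_neg (by omega)]

lemma hnd_last : hnd n B s (2 * n + 1) = 1 := by
  unfold hnd
  rw [if_pos rfl]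

lemma hnd_zero : hnd n B s 0 = 1 := by
  unfold hnd
  rw [if_neg (by omega), if_pos rfl]

lemma hnd_odd {i : ℕ} (hi : i < n) : hnd n B s (2 * i + 1) = 2 * s i := by
  unfold hnd
  rw [if_neg (by omega), if_neg (by omega), if_pos (by omega)]
  congr 2
  omega

lemma hnd_even (i : ℕ) : hnd n B s (2 * i + 2) = MM n B s := by
  unfold hnd
  rw [if_neg (by omega), if_neg (by omega), if_neg (by omega)]

lemma sum_hnd {m : ℕ} (hm : m ≤ n) : ∑ j ∈ range (2 * m + 1), hnd n B s j =
    1 + m * MM n B s + 2 * ∑ i ∈ range m, s i := by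
  induction m with
  | zero => simp [hnd_zero]
  | succ m ih =>
    rw [show 2 * (m + 1) + 1 = 2 * m + 1 + 1 + 1 by ring, sum_range_succ, sum_range_succ,
      ih (by omega), hnd_odd n B s (by omega), show 2 * m + 1 + 1 = 2 * m + 2 by ring, hnd_even,
      sum_range_succ]
    ring

lemma sum_hnd_all : ∑ j ∈ range (2 * n + 2), hnd n B s j =
    2 + n * MM n B s + 2 * SS n s := by
  rw [show 2 * n + 2 = 2 * n + 1 + 1 by ring, sum_range_succ, sum_hnd n B s le_rfl, hnd_last]
  unfold SS
  ring

lemma hand_range (k : ℕ) (h : ℕ → ℕ) : hand h (List.range k) = ∑ j ∈ range k, h j := by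
  unfold hand
  rw [Finset.sum_range, List.sum_ofFn.symm]
  congr 1
  apply List.ext_getElem
  · simp
  · intro i h1 h2
    simp

lemma hand_le {l : List ℕ} (hl : l.Nodup) {t : Finset ℕ} (h : ℕ → ℕ) (hsub : ∀ j ∈ l, j ∈ t) :
    hand h l ≤ ∑ j ∈ t, h j := by
  unfold hand
  rw [← List.sum_toFinset h hl]
  apply Finset.sum_le_sum_of_subset
  intro j hj
  exact hsub j (List.mem_toFinset.1 hj)

lemma hand_ge {l : List ℕ} (hl : l.Nodup) {t : Finset ℕ} (h : ℕ → ℕ) (hsub : ∀ j ∈ t, j ∈ l) :
    ∑ j ∈ t, h j ≤ hand h l := by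
  unfold hand
  rw [← List.sum_toFinset h hl]
  apply Finset.sum_le_sum_of_subset
  intro j hj
  exact List.mem_toFinset.2 (hsub j hj)

/-- In a good schedule, an item processed before the last vertex is processed after some vertex to
its right. -/
lemma right_before {π : List ℕ} (hπ : π.Perm (List.range (2 * n + 2)))
    (hK : comp (len s) (rel n B s) (hnd n B s) 0 (0, 0) π ≤ KK n B s) {i : ℕ} (hi : i < n)
    {a c : List ℕ} (hac : π = a ++ (2 * i + 1) :: c) (hc : 2 * n + 1 ∈ c) :
    ∃ q ∈ a, 2 * i + 1 < q := by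
  by_contra hno
  push Not at hno
  have hnodup : π.Nodup := hπ.nodup_iff.2 List.nodup_range
  have h1 := comp_ge_release (len s) (rel n B s) (hnd n B s) 0 (0, 0) a c (2 * i + 1)
  rw [← hac] at h1
  have h2 := walk_mem (len s) 0 (2 * i + 1) (2 * n + 1) c hc
  rw [dd_of_le (len s) (by omega : 2 * i + 1 ≤ 2 * n + 1), dd_comm,
    dd_of_le (len s) (by omega : 0 ≤ 2 * n + 1), pos_last, pos_zero] at h2
  have h3 : hand (hnd n B s) π = 2 + n * MM n B s + 2 * SS n s := by
    rw [hand_perm _ hπ, hand_range, sum_hnd_all]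
  rw [hac, hand_append, hand_cons] at h3
  have hnodup' : a.Nodup := by
    rw [hac] at hnodup
    exact (List.nodup_append.1 hnodup).1
  have h4 : hand (hnd n B s) a ≤ 1 + i * MM n B s + 2 * ∑ j ∈ range i, s j := by
    rw [← sum_hnd n B s (by omega : i ≤ n)]
    apply hand_le hnodup'
    intro j hj
    have h5 := hno j hj
    rw [Finset.mem_range]
    have h6 : j ≠ 2 * i + 1 := by
      rintro rfl
      rw [hac] at hnodup
      exact (List.nodup_append.1 hnodup).2.2 _ hj _ (by simp) rfl
    omega
  have h5 : ∑ j ∈ range i, s j ≤ SS n s := by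
    apply Finset.sum_le_sum_of_subset
    exact Finset.range_mono (by omega)
  rw [rel_odd n B s hi] at h1
  have h6 : pos (len s) (2 * i + 1) ≤ LL n s := by
    rw [← pos_last]
    exact pos_mono _ (by omega)
  have hM : MM n B s = 2 * SS n s + 2 * B + LL n s + 1 := rfl
  have hKK : KK n B s = 2 * LL n s + 2 + n * MM n B s + 2 * SS n s + 2 * B := rfl
  have e1 : (i + 1) * MM n B s = i * MM n B s + MM n B s := by ring
  generalize i * MM n B s = X at *
  generalize n * MM n B s = Y at *
  omega

/-- The travel bound. -/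
lemma walk_lower {π : List ℕ} (hle : ∀ q ∈ π, q ≤ 2 * n + 1) (hF : 2 * n + 1 ∈ π) (b : ℕ → Bool)
    (hb : ∀ i < n, b i = true → ∃ a c : List ℕ, π = a ++ (2 * i + 1) :: c ∧ 2 * n + 1 ∈ c ∧
      ∃ q ∈ a, 2 * i + 1 < q) :
    2 * LL n s + 2 * (∑ i ∈ range n, if b i then s i else 0) ≤ walk (len s) 0 0 π := by
  rw [walk_eq_sum (len s) (2 * n + 1) 0 (by omega) 0 (by omega) π hle]
  -- lower bound of the number of crossings
  have hch : ∀ e < 2 * n + 1, 2 ≤ ch (side e 0) ((π ++ [0]).map (side e)) := by
    intro e he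
    have hsub : ([2 * n + 1, 0] : List ℕ).Sublist (π ++ [0]) := by
      have h1 : ([2 * n + 1] : List ℕ).Sublist π := List.singleton_sublist.2 hF
      exact h1.append (List.Sublist.refl [0])
    have h2 := ch_sublist (hsub.map (side e)) (side e 0)
    refine le_trans ?_ h2
    simp only [List.map_cons, List.map_nil, ch, side]
    have : ¬ (2 * n + 1 ≤ e) := by omega
    simp [this]
  have hch4 : ∀ i < n, b i = true →
      4 ≤ ch (side (2 * i + 1) 0) ((π ++ [0]).map (side (2 * i + 1))) := by
    intro i hi hbi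
    obtain ⟨a, c, hac, hc, q, hq, hqi⟩ := hb i hi hbi
    have hsub : ([q, 2 * i + 1, 2 * n + 1, 0] : List ℕ).Sublist (π ++ [0]) := by
      rw [hac, List.append_assoc]
      have h1 : ([q] : List ℕ).Sublist a := List.singleton_sublist.2 hq
      have h2 : ([2 * n + 1] : List ℕ).Sublist c := List.singleton_sublist.2 hc
      have h3 : ([2 * n + 1, 0] : List ℕ).Sublist (c ++ [0]) := h2.append (List.Sublist.refl [0])
      have h4 : ([2 * i + 1, 2 * n + 1, 0] : List ℕ).Sublist ((2 * i + 1) :: (c ++ [0])) :=
        h3.cons_cons _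
      exact h1.append h4
    have h2 := ch_sublist (hsub.map (side (2 * i + 1))) (side (2 * i + 1) 0)
    refine le_trans ?_ h2
    have h5 : ¬ (2 * n + 1 ≤ 2 * i + 1) := by omega
    have h6 : ¬ (q ≤ 2 * i + 1) := by omega
    simp only [List.map_cons, List.map_nil, ch, side]
    simp [h5, h6]
  -- split the sum
  have key : ∀ m ≤ n, 2 * pos (len s) (2 * m + 1) + 2 * (∑ i ∈ range m, if b i then s i else 0) ≤
      ∑ e ∈ range (2 * m + 1), len s e * ch (side e 0) ((π ++ [0]).map (side e)) := by
    intro m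
    induction m with
    | zero =>
      intro _
      have h0 := hch 0 (by omega)
      have : pos (len s) 1 = 1 := by
        have := pos_odd s 0
        simpa using this
      simp [this, len]
      simpa using h0
    | succ m ih =>
      intro hm
      have ih' := ih (by omega)
      have hsum : ∀ g : ℕ → ℕ, ∑ e ∈ range (2 * (m + 1) + 1), g e =
          ∑ e ∈ range (2 * m + 1), g e + g (2 * m + 1) + g (2 * (m + 1)) := by
        intro g
        rw [show 2 * (m + 1) + 1 = 2 * m + 1 + 1 + 1 by ring, sum_range_succ, sum_range_succ]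
        rfl
      have hpos : pos (len s) (2 * (m + 1) + 1) = pos (len s) (2 * m + 1) + s m + 1 := by
        rw [pos_succ, show 2 * (m + 1) = 2 * m + 1 + 1 by ring, pos_succ, len_odd,
          show 2 * m + 1 + 1 = 2 * (m + 1) by ring, len_even]
      rw [hsum, hpos, len_odd, len_even, sum_range_succ]
      have h1 := hch (2 * (m + 1)) (by omega)
      have h2 := hch (2 * m + 1) (by omega)
      by_cases hbm : b m = true
      · have h3 := hch4 m (by omega) hbm
        rw [if_pos hbm]
        nlinarith [Nat.mul_le_mul_left (s m) h3]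
      · rw [if_neg hbm]
        nlinarith [Nat.mul_le_mul_left (s m) h2]
  have := key n le_rfl
  rw [pos_last] at this
  exact this

/-- A schedule meeting the bound gives a solution of the subset sum instance. -/
theorem sound {π : List ℕ} (hπ : π.Perm (List.range (2 * n + 2)))
    (hK : comp (len s) (rel n B s) (hnd n B s) 0 (0, 0) π ≤ KK n B s) :
    ∃ b : ℕ → Bool, ∑ i ∈ range n, (if b i then s i else 0) = B := by
  have hnodup : π.Nodup := hπ.nodup_iff.2 List.nodup_range
  have hF : 2 * n + 1 ∈ π := by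
    rw [hπ.mem_iff, List.mem_range]
    omega
  obtain ⟨al, be, hab⟩ := List.append_of_mem hF
  have hM : MM n B s = 2 * SS n s + 2 * B + LL n s + 1 := rfl
  have hKK : KK n B s = 2 * LL n s + 2 + n * MM n B s + 2 * SS n s + 2 * B := rfl
  have hRR : RR n B s = LL n s + 1 + n * MM n B s + 4 * B := rfl
  have hnd2 : be.Nodup ∧ al.Nodup ∧ ∀ x ∈ al, x ∉ be := by
    rw [hab] at hnodup
    have h := List.nodup_append.1 hnodup
    refine ⟨(List.nodup_cons.1 h.2.1).2, h.1, ?_⟩
    intro x hx hx2
    exact h.2.2 x hx x (List.mem_cons_of_mem _ hx2) rfl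
  -- handling time after the last vertex
  have hbe : hand (hnd n B s) be + 2 * B ≤ 2 * SS n s := by
    have h1 := comp_ge_release (len s) (rel n B s) (hnd n B s) 0 (0, 0) al be (2 * n + 1)
    rw [← hab, rel_last, hnd_last] at h1
    have h2 := walk_ge (len s) 0 (2 * n + 1) be
    rw [dd_comm, dd_of_le (len s) (by omega : 0 ≤ 2 * n + 1), pos_last, pos_zero] at h2
    omega
  let b : ℕ → Bool := fun i => decide (2 * i + 1 ∈ al)
  have hsplit : ∑ i ∈ range n, (if b i then s i else 0) +
      ∑ i ∈ range n, (if b i then 0 else s i) = SS n s := by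
    unfold SS
    rw [← sum_add_distrib]
    apply sum_congr rfl
    intro i _
    by_cases h : b i = true <;> simp [h]
  have hafter : 2 * ∑ i ∈ range n, (if b i then 0 else s i) ≤ hand (hnd n B s) be := by
    have h1 : 2 * ∑ i ∈ range n, (if b i then 0 else s i) =
        ∑ j ∈ ((range n).filter (fun i => ¬ (b i = true))).image (fun i => 2 * i + 1),
          hnd n B s j := by
      rw [sum_image (by intro x _ y _ h; simp only at h; omega), sum_filter, mul_sum]
      apply sum_congr rfl
      intro i hi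
      rw [Finset.mem_range] at hi
      rw [hnd_odd n B s hi]
      by_cases h : b i = true <;> simp [h]
    rw [h1]
    apply hand_ge hnd2.1
    intro j hj
    rw [mem_image] at hj
    obtain ⟨i, hi, rfl⟩ := hj
    rw [mem_filter, Finset.mem_range] at hi
    have hmem : 2 * i + 1 ∈ π := by
      rw [hπ.mem_iff, List.mem_range]
      omega
    rw [hab, List.mem_append, List.mem_cons] at hmem
    rcases hmem with h | h | h
    · exfalso
      apply hi.2
      simpa [b] using h
    · omega
    · exact h
  refine ⟨b, ?_⟩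
  -- travel bound
  have hwalk : 2 * LL n s + 2 * (∑ i ∈ range n, if b i then s i else 0) ≤
      walk (len s) 0 0 π := by
    apply walk_lower n s
    · intro q hq
      rw [hπ.mem_iff, List.mem_range] at hq
      omega
    · exact hF
    · intro i hi hbi
      have hial : 2 * i + 1 ∈ al := by simpa [b] using hbi
      obtain ⟨a, c, hac⟩ := List.append_of_mem hial
      have hπ' : π = a ++ (2 * i + 1) :: (c ++ (2 * n + 1) :: be) := by
        rw [hab, hac]
        simp
      have hc : 2 * n + 1 ∈ c ++ (2 * n + 1) :: be := by simp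
      exact ⟨a, _, hπ', hc, right_before n B s hπ hK hi hπ' hc⟩
  have htot := comp_ge (len s) (rel n B s) (hnd n B s) 0 (0, 0) π
  have h3 : hand (hnd n B s) π = 2 + n * MM n B s + 2 * SS n s := by
    rw [hand_perm _ hπ, hand_range, sum_hnd_all]
  simp only [zero_add] at htot
  omega

end Inst

end Pool.Agent.H688R2.VSP
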